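import Pool.Agent.R579.Chaos.Tr
import Pool.Agent.R579.Chaos.Hyp

/-!
# MP_570bb5_an: positive answer to Q1 and Q2

Let `X = G/K` be a Riemannian symmetric space of noncompact type (any rank), and let
`p₂ ≤ p₁ < ∞`. If a `G`-invariant operator, bounded on `L^{p₁}(X)` and on `L^{p₂}(X)`, is
hypercyclic (chaotic) on `L^{p₂}(X)`, then it is hypercyclic (chaotic) on `L^{p₁}(X)`.

The theorem is proved for every *symmetric metric measure space* (`IsSymmetric`, defined in
`Pool.Agent.R579.Chaos.Sym`): a proper metric space `X` with a transitive group `G` of isometries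
preserving a Borel measure `μ`, finite on compact sets and positive on open sets, and an
involutive measure preserving isometry `s` such that any two points are exchanged by `g ∘ s` for
some `g` in `G`.  A Riemannian symmetric space of noncompact type `X = G/K`, with its Riemannian
distance and measure and `s = s_o` the geodesic symmetry at the base point `o`, is such a space:
if `m` is the midpoint of `x` and `y` and `s_m` is the geodesic symmetry at `m`, then `s_m`
exchanges `x` and `y`, and `s_m = g ∘ s_o` with `g = s_m s_o` a transvection, hence in `G`.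

The second part of the theorem checks these hypotheses for the hyperbolic plane
`SL(2, ℝ) / SO(2)` (Mathlib's upper half plane with its metric and invariant measure, `s = id`).

`Hypercyclic` and `Chaotic` are defined in `Pool.Agent.R579.Chaos.Dyn`, and `GInvariant`,
`AgreeOnCc` and `Transfers` in `Pool.Agent.R579.Chaos.Tr`.
-/

namespace Pool.Agent.Results.MP_570bb5_an.ChaosTransfer

open MeasureTheory Set Filter Topology Metric Pool.Agent.R579.Chaos
open scoped ENNReal CompactlySupported MatrixGroups UpperHalfPlane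

/-- Let `(G, X, μ, s)` be a symmetric metric measure space and `1 ≤ p₂ ≤ p₁ < ∞`. Let `T₁` and
`T₂` be bounded operators on `L^{p₁}(X)` and `L^{p₂}(X)` which commute with the action of `G` and
agree on the continuous functions with compact support. If `T₂` is hypercyclic then `T₁` is
hypercyclic, and if `T₂` is chaotic then `T₁` is chaotic. -/
theorem main {X : Type*} [MetricSpace X] [ProperSpace X] [MeasurableSpace X] [BorelSpace X]
    {μ : Measure X} [IsFiniteMeasureOnCompacts μ] [μ.IsOpenPosMeasure]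
    {G : Type*} [Group G] [MulAction G X] {s : X → X} (h : IsSymmetric G μ s)
    {p₁ p₂ : ℝ≥0∞} [Fact (1 ≤ p₁)] [Fact (1 ≤ p₂)] (hp : p₂ ≤ p₁) (hp₁ : p₁ ≠ ∞)
    (T₁ : Lp ℂ p₁ μ →L[ℂ] Lp ℂ p₁ μ) (T₂ : Lp ℂ p₂ μ →L[ℂ] Lp ℂ p₂ μ)
    (hT₂ : CommutesWith h T₂)
    (hagree : ∀ f : X → ℂ, ∀ hc : Continuous f, ∀ hs : HasCompactSupport f,
      T₁ ((hc.memLp_of_hasCompactSupport hs).toLp f) =ᵐ[μ]
        T₂ ((hc.memLp_of_hasCompactSupport hs).toLp f)) :
    (Hypercyclic T₂ → Hypercyclic T₁) ∧ (Chaotic T₂ → Chaotic T₁) := by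
  have hk := ker_goodSeq h
  have hp₂ : p₂ ≠ ∞ := fun h => hp₁ (top_le_iff.1 (h ▸ hp))
  have : Fact (1 ≤ (1 - p₁⁻¹)⁻¹) := by simp [fact_iff]
  have : Fact (1 ≤ (1 - p₂⁻¹)⁻¹) := by simp [fact_iff]
  have : ENNReal.HolderConjugate p₁ (1 - p₁⁻¹)⁻¹ :=
    ENNReal.HolderConjugate.inv_one_sub_inv' (Fact.out : 1 ≤ p₁)
  have : ENNReal.HolderConjugate p₂ (1 - p₂⁻¹)⁻¹ :=
    ENNReal.HolderConjugate.inv_one_sub_inv' (Fact.out : 1 ≤ p₂)
  have hagree' : ∀ f : C_c(X, ℂ), T₁ (toE μ p₁ f) =ᵐ[μ] T₂ (toE μ p₂ f) :=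
    fun f => hagree f f.continuous f.hasCompactSupport
  have hcomm : ∀ n u, T₁ (A h n p₂ p₁ u) = A h n p₂ p₁ (T₂ u) := by
    intro n u
    refine congrFun ((denseRange_toE μ p₂ hp₂).equalizer
      (T₁.continuous.comp (A h n p₂ p₁).continuous)
      ((A h n p₂ p₁).continuous.comp T₂.continuous) (funext (fun f => ?_))) u
    change T₁ (A h n p₂ p₁ (toE μ p₂ f)) = A h n p₂ p₁ (T₂ (toE μ p₂ f))
    rw [← sub_eq_zero]
    refine eq_zero_of_pairing _ (fun ψ => ?_)
    rw [← pr_toE p₁ (1 - p₁⁻¹)⁻¹, map_sub, ContinuousLinearMap.sub_apply, sub_eq_zero,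
      pr_toE, pr_toE]
    have e1 : A h n p₂ p₁ (toE μ p₂ f) = toE μ p₁ ((hk.good n).avg f) :=
      (hk.good n).op_toE hp hp₁ f
    have e2 : A h n p₂ p₂ (toE μ p₂ f) = toE μ p₂ ((hk.good n).avg f) :=
      (hk.good n).op_toE le_rfl hp₂ f
    have e3 : ∫ x, (A h n p₂ p₁ (T₂ (toE μ p₂ f))) x * ψ x ∂μ
        = ∫ x, (T₂ (toE μ p₂ f)) x * (hk.good n).avg ψ x ∂μ :=
      (hk.good n).pr_op (p := p₂) (q := (1 - p₂⁻¹)⁻¹) (p' := p₁) (q' := (1 - p₁⁻¹)⁻¹)
        hp hp₁ _ ψ
    have e4 : ∫ x, (A h n p₂ p₂ (T₂ (toE μ p₂ f))) x * ψ x ∂μ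
        = ∫ x, (T₂ (toE μ p₂ f)) x * (hk.good n).avg ψ x ∂μ :=
      (hk.good n).pr_op (p := p₂) (q := (1 - p₂⁻¹)⁻¹) (p' := p₂) (q' := (1 - p₂⁻¹)⁻¹)
        le_rfl hp₂ _ ψ
    rw [e1, e3, ← e4, ← commute_A h (q := (1 - p₂⁻¹)⁻¹) hp₂ hT₂, e2]
    refine integral_congr_ae ?_
    filter_upwards [hagree' ((hk.good n).avg f)] with x hx
    rw [hx]
  have : Fact (p₁ ≠ ∞) := ⟨hp₁⟩
  refine transfer (D := C_c(X, ℂ)) (j₁ := toE μ p₁) (j₂ := toE μ p₂) (denseRange_toE μ p₁ hp₁)
    (fun n => A h n p₂ p₁) hcomm (fun f => ?_)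
  have e5 : ∀ n, A h n p₂ p₁ (toE μ p₂ f) = toE μ p₁ ((hk.good n).avg f) := fun n =>
    (hk.good n).op_toE hp hp₁ f
  simp_rw [e5]
  exact hk.tendsto p₁ f

theorem transfers {X : Type*} [MetricSpace X] [ProperSpace X] [MeasurableSpace X] [BorelSpace X]
    {μ : Measure X} [IsFiniteMeasureOnCompacts μ] [μ.IsOpenPosMeasure]
    {G : Type*} [Group G] [MulAction G X] {s : X → X} (h : IsSymmetric G μ s)
    {p₁ p₂ : ℝ≥0∞} [Fact (1 ≤ p₁)] [Fact (1 ≤ p₂)] (hp : p₂ ≤ p₁) (hp₁ : p₁ ≠ ∞) :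
    Transfers G μ p₁ p₂ := by
  intro T₁ T₂ hT₂ hagree
  have hc : CommutesWith h T₂ := by
    intro g u
    refine Lp.ext ?_
    have h1 : ∀ᵐ x ∂μ, (Lp.compMeasurePreserving (fun x : X => g • x) (h.preserving_smul g) u) x
        = u (g • x) := Lp.coeFn_compMeasurePreserving u (h.preserving_smul g)
    have h2 : ∀ᵐ x ∂μ, (Lp.compMeasurePreserving (fun x : X => g • x) (h.preserving_smul g)
        (T₂ u)) x = (T₂ u) (g • x) := Lp.coeFn_compMeasurePreserving (T₂ u) (h.preserving_smul g)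
    have h3 : ∀ᵐ x ∂μ, T₂ (Lp.compMeasurePreserving (fun x : X => g • x)
        (h.preserving_smul g) u) x = T₂ u (g • x) := hT₂ g u _ h1
    filter_upwards [h2, h3] with x hx hx'
    rw [hx, hx']
  refine main h hp hp₁ T₁ T₂ hc (fun f hf hs => ?_)
  exact hagree f _ _
    ⟨hf, hs, MemLp.coeFn_toLp (hf.memLp_of_hasCompactSupport (p := p₁) (μ := μ) hs)⟩
    ⟨hf, hs, MemLp.coeFn_toLp (hf.memLp_of_hasCompactSupport (p := p₂) (μ := μ) hs)⟩

universe u v

/-- Positive answer to both questions. First part: in every symmetric metric measure space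
`(G, X, μ, s)`, for `1 ≤ p₂ ≤ p₁ < ∞`, if a bounded operator `T₁` on `L^{p₁}(X)` and a
`G`-invariant bounded operator `T₂` on `L^{p₂}(X)` agree on the continuous functions with compact
support, then hypercyclicity (chaos) of `T₂` on `L^{p₂}(X)` implies hypercyclicity (chaos) of `T₁`
on `L^{p₁}(X)`. Second part: the hyperbolic plane `SL(2, ℝ) / SO(2)`, with its metric and its
invariant measure, is a symmetric metric measure space. -/
theorem result :
    (∀ (X : Type u) [MetricSpace X] [ProperSpace X] [MeasurableSpace X] [BorelSpace X]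
      (μ : Measure X) [IsFiniteMeasureOnCompacts μ] [μ.IsOpenPosMeasure]
      (G : Type v) [Group G] [MulAction G X] (s : X → X), IsSymmetric G μ s →
      ∀ (p₁ p₂ : ℝ≥0∞) [Fact (1 ≤ p₁)] [Fact (1 ≤ p₂)], p₂ ≤ p₁ → p₁ ≠ ∞ →
      Transfers G μ p₁ p₂) ∧
    (IsSymmetric SL(2, ℝ) (volume : Measure ℍ) id ∧
      (volume : Measure ℍ).IsOpenPosMeasure) := by
  refine ⟨?_, isSymmetric_upperHalfPlane, isOpenPos_upperHalfPlane⟩
  intro X _ _ _ _ μ _ _ G _ _ s h p₁ p₂ _ _ hp hp₁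
  exact transfers h hp hp₁

end Pool.Agent.Results.MP_570bb5_an.ChaosTransfer
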